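import Pool.Agent.W243.TD.Stm

/-! Rank of a group of points. -/

set_option autoImplicit false

namespace Pool.Agent.W261.TD

open Finset Module
open Pool.Agent.W243.TD
open Pool.Agent.H335R2.Obs (kSpan finrank_kSpan)

/-- dimension of the orthogonal complement (upper bound) -/
theorem orth_le (K : Type*) [Field K] {w : ℕ} (U W0 : Submodule K (Fin w → K))
    (h : ∀ c ∈ W0, ∀ u ∈ U, ∑ i, u i * c i = 0) : finrank K U + finrank K W0 ≤ w := by
  classical
  let f : (Fin w → K) →ₗ[K] Module.Dual K (Fin w → K) :=
    LinearMap.mk₂ K (fun u c => ∑ i, u i * c i)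
      (by intro a b c; simp [add_mul, Finset.sum_add_distrib])
      (by intro r a c; simp [mul_assoc, Finset.mul_sum])
      (by intro a b c; simp [mul_add, Finset.sum_add_distrib])
      (by
        intro r a c
        simp only [Pi.smul_apply, smul_eq_mul, Finset.mul_sum]
        apply Finset.sum_congr rfl; intro i _; ring)
  have hf : Function.Injective f := by
    rw [← LinearMap.ker_eq_bot, LinearMap.ker_eq_bot']
    intro u hu
    funext i
    have h1 := congrArg (fun φ : Module.Dual K (Fin w → K) => φ (Pi.single i 1)) hu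
    simpa [f, Pi.single_apply] using h1
  let Φ : Submodule K (Module.Dual K (Fin w → K)) := U.map f
  have h1 : finrank K Φ = finrank K U :=
    (LinearEquiv.finrank_eq (Submodule.equivMapOfInjective f hf U)).symm
  have h2 := Subspace.finrank_add_finrank_dualCoannihilator_eq Φ
  have h3 : W0 ≤ Φ.dualCoannihilator := by
    intro c hc
    rw [Submodule.mem_dualCoannihilator]
    rintro _ ⟨u, hu, rfl⟩
    exact h c hc u hu
  have h4 := Submodule.finrank_mono h3
  rw [finrank_fintype_fun_eq_card, Fintype.card_fin] at h2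
  omega

theorem int_basis {n : ℕ} (R : AddSubgroup (Fin n → ℤ)) :
    ∃ ρ : Fin (finrank ℤ R) → (Fin n → ℤ), (∀ k, ρ k ∈ R) ∧
      (∀ m ∈ R, ∃ c : Fin (finrank ℤ R) → ℤ, m = ∑ k, c k • ρ k) := by
  classical
  let R' : Submodule ℤ (Fin n → ℤ) := AddSubgroup.toIntSubmodule R
  let B : Basis (Fin (finrank ℤ R')) ℤ R' := Module.finBasis ℤ R'
  refine ⟨fun k => (B k : Fin n → ℤ), fun k => (B k).2, ?_⟩
  intro m hm
  refine ⟨fun k => B.repr ⟨m, hm⟩ k, ?_⟩
  have h1 := B.sum_repr ⟨m, hm⟩
  have h2 := congrArg (Submodule.subtype R') h1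
  rw [map_sum] at h2
  simp only [map_smul] at h2
  exact h2.symm

theorem g0 : S_g0 := by
  intro K P hP d l V' Rm G0 z H
  classical
  obtain ⟨ρ, hρ1, hρ2⟩ := int_basis Rm
  -- the space `V''`
  let V2 : Submodule K (Fin d → K) :=
    { carrier := {v | v ∈ V' ∧ ∀ m ∈ Rm, ∑ j, (m j : K) * v j = 0}
      zero_mem' := ⟨V'.zero_mem, fun m _ => by simp⟩
      add_mem' := by
        rintro a b ⟨ha, ha'⟩ ⟨hb, hb'⟩
        refine ⟨V'.add_mem ha hb, fun m hm => ?_⟩
        simp only [Pi.add_apply, mul_add, Finset.sum_add_distrib, ha' m hm, hb' m hm, add_zero]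
      smul_mem' := by
        rintro c a ⟨ha, ha'⟩
        refine ⟨V'.smul_mem c ha, fun m hm => ?_⟩
        have : ∀ j, (m j : K) * (c • a) j = c * ((m j : K) * a j) := fun j => by
          simp only [Pi.smul_apply, smul_eq_mul]; ring
        simp only [this, ← Finset.mul_sum, ha' m hm, mul_zero] }
  have hV2 : ∀ v, v ∈ V2 ↔ v ∈ V' ∧ ∀ m ∈ Rm, ∑ j, (m j : K) * v j = 0 := fun v => Iff.rfl
  -- the points
  let zs : (Fin l → ℤ) →+ (Fin d → K) :=
    { toFun := fun s => ∑ p, (s p : K) • z p
      map_zero' := by simp
      map_add' := by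
        intro a b
        simp only [Pi.add_apply, Int.cast_add, add_smul, Finset.sum_add_distrib] }
  have hzs : ∀ s j, zs s j = ∑ p, (s p : K) * z p j := by
    intro s j
    change (∑ p, (s p : K) • z p) j = _
    simp [Finset.sum_apply]
  let G : AddSubgroup (Fin l → ℤ) := G0 ⊓ V2.toAddSubgroup.comap zs
  have hG : ∀ s, s ∈ G ↔ s ∈ G0 ∧ zs s ∈ V2 := fun s => Iff.rfl
  refine ⟨V2, G, hV2, inf_le_left, fun s hs => ((hG s).1 hs).2, ?_, ?_⟩
  · -- the linear map `M`
    let M : (Fin d → K) →ₗ[K] (Fin (finrank ℤ Rm) → K) :=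
      { toFun := fun v i => ∑ j, (ρ i j : K) * v j
        map_add' := by
          intro a b
          funext i
          simp only [Pi.add_apply, mul_add, Finset.sum_add_distrib]
        map_smul' := by
          intro c a
          funext i
          simp only [Pi.smul_apply, smul_eq_mul, RingHom.id_apply, Finset.mul_sum]
          exact Finset.sum_congr rfl fun j _ => by ring }
    have hM0 : ∀ v, M v = 0 → ∀ m ∈ Rm, ∑ j, (m j : K) * v j = 0 := by
      intro v hv m hm
      obtain ⟨c, hc⟩ := hρ2 m hm
      have h1 : ∀ j, (m j : K) * v j = ∑ k, (c k : K) * ((ρ k j : K) * v j) := by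
        intro j
        have h2 := congrFun hc j
        rw [h2]
        simp only [Finset.sum_apply, Pi.smul_apply, smul_eq_mul]
        push_cast
        rw [Finset.sum_mul]
        exact Finset.sum_congr rfl fun k _ => by ring
      simp only [h1]
      rw [Finset.sum_comm]
      refine Finset.sum_eq_zero fun k _ => ?_
      rw [← Finset.mul_sum]
      have h3 : ∑ j, (ρ k j : K) * v j = 0 := congrFun hv k
      rw [h3, mul_zero]
    let M' : V' →ₗ[K] (Fin (finrank ℤ Rm) → K) := M.comp V'.subtype
    have hker : finrank K (LinearMap.ker M') = finrank K V2 := by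
      have h1 : (LinearMap.ker M').map V'.subtype = V2 := by
        ext v
        rw [Submodule.mem_map]
        constructor
        · rintro ⟨⟨w, hw⟩, hk, rfl⟩
          exact ⟨hw, hM0 w hk⟩
        · rintro ⟨hv, hv'⟩
          refine ⟨⟨v, hv⟩, ?_, rfl⟩
          rw [LinearMap.mem_ker]
          funext i
          exact hv' (ρ i) (hρ1 i)
      rw [← h1, Submodule.finrank_map_subtype_eq]
    have hrk := LinearMap.finrank_range_add_finrank_ker M'
    rw [hker] at hrk
    -- the integers
    have hex : ∀ (s : G0) (i : Fin (finrank ℤ Rm)), ∃ n : ℤ,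
        ((M (zs s) i : K) : ℂ) = n * P := by
      intro s i
      obtain ⟨n, hn⟩ := (H s s.2).2 (ρ i) (hρ1 i)
      refine ⟨n, ?_⟩
      rw [← hn]
      congr 1
      change ∑ j, (ρ i j : K) * zs s j = _
      exact Finset.sum_congr rfl fun j _ => by rw [hzs]
    choose φ hφ using hex
    let Φ : (AddSubgroup.toIntSubmodule G0) →+ (Fin (finrank ℤ Rm) → ℤ) :=
      AddMonoidHom.mk' (fun s => φ s) (by
        intro a b
        funext i
        have h1 := hφ (a + b) i
        have h2 := hφ a i
        have h3 := hφ b i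
        have h4 : ((M (zs (a + b : G0)) i : K) : ℂ) = (M (zs (a : G0)) i : K) +
            (M (zs (b : G0)) i : K) := by
          have h6 : M (zs (a + b : G0)) = M (zs (a : G0)) + M (zs (b : G0)) := by
            change M (zs ((a : Fin l → ℤ) + (b : Fin l → ℤ))) = _
            rw [map_add, map_add]
          rw [h6, Pi.add_apply]
          push_cast
          rfl
        rw [h1, h2, h3, ← add_mul] at h4
        have h5 := mul_right_cancel₀ hP h4
        change φ (a + b) i = φ a i + φ b i
        exact_mod_cast h5)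
    let Φ' : (AddSubgroup.toIntSubmodule G0) →ₗ[ℤ] (Fin (finrank ℤ Rm) → ℤ) :=
      Φ.toIntLinearMap
    have hΦ : ∀ s i, Φ' s i = φ s i := fun s i => rfl
    have hker2 : finrank ℤ (LinearMap.ker Φ') = finrank ℤ G := by
      have h1 : (LinearMap.ker Φ').map (AddSubgroup.toIntSubmodule G0).subtype =
          AddSubgroup.toIntSubmodule G := by
        ext s
        rw [Submodule.mem_map]
        constructor
        · rintro ⟨⟨w, hw⟩, hk, rfl⟩
          change w ∈ G
          rw [hG]
          refine ⟨hw, ?_⟩
          refine ⟨(H w hw).1, hM0 _ ?_⟩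
          funext i
          have h2 := hφ ⟨w, hw⟩ i
          have h3 : φ ⟨w, hw⟩ i = 0 := congrFun (LinearMap.mem_ker.1 hk) i
          rw [h3, Int.cast_zero, zero_mul] at h2
          exact_mod_cast h2
        · intro hs
          change s ∈ G at hs
          rw [hG] at hs
          refine ⟨⟨s, hs.1⟩, ?_, rfl⟩
          rw [LinearMap.mem_ker]
          funext i
          have h2 := hφ ⟨s, hs.1⟩ i
          have h3 : M (zs s) i = 0 := hs.2.2 (ρ i) (hρ1 i)
          rw [h3] at h2
          have h4 : ((φ ⟨s, hs.1⟩ i : ℤ) : ℂ) * P = 0 := by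
            rw [← h2]
            simp
          have h5 := (mul_eq_zero.1 h4).resolve_right hP
          rw [hΦ]
          exact_mod_cast h5
      have h2 : finrank ℤ G = finrank ℤ (AddSubgroup.toIntSubmodule G) := rfl
      rw [h2, ← h1, Submodule.finrank_map_subtype_eq]
    have hrk2 := Submodule.finrank_quotient_add_finrank (LinearMap.ker Φ')
    rw [hker2, Φ'.quotKerEquivRange.finrank_eq] at hrk2
    have hG0 : finrank ℤ (AddSubgroup.toIntSubmodule G0) = finrank ℤ G0 := rfl
    rw [hG0] at hrk2
    -- comparison of the ranges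
    have hcmp : finrank ℤ (LinearMap.range Φ') ≤ finrank K (LinearMap.range M') := by
      let R' : AddSubgroup (Fin (finrank ℤ Rm) → ℤ) := (LinearMap.range Φ').toAddSubgroup
      have h1 : finrank ℤ (LinearMap.range Φ') = finrank ℤ R' := rfl
      rw [h1, ← finrank_kSpan K R']
      by_cases hPK : ∃ P0 : K, (P0 : ℂ) = P
      · obtain ⟨P0, hP0⟩ := hPK
        have hP0' : P0 ≠ 0 := by
          rintro rfl
          exact hP (by rw [← hP0]; simp)
        refine Submodule.finrank_mono ?_
        unfold kSpan
        rw [Submodule.span_le]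
        rintro _ ⟨r, ⟨s, rfl⟩, rfl⟩
        refine ⟨P0⁻¹ • (⟨zs s, (H s s.2).1⟩ : V'), ?_⟩
        rw [map_smul]
        funext i
        change P0⁻¹ * M (zs s) i = ((φ s i : ℤ) : K)
        have h2 : M (zs s) i = ((φ s i : ℤ) : K) * P0 := by
          apply Subtype.ext
          have := hφ s i
          rw [this, ← hP0]
          push_cast
          rfl
        rw [h2]
        field_simp
      · have h2 : kSpan K R' = ⊥ := by
          unfold kSpan
          rw [Submodule.span_eq_bot]
          rintro _ ⟨r, ⟨s, rfl⟩, rfl⟩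
          funext i
          change ((φ s i : ℤ) : K) = 0
          by_contra h3
          apply hPK
          refine ⟨M (zs s) i / ((φ s i : ℤ) : K), ?_⟩
          have h4 := hφ s i
          have h5 : ((φ s i : ℤ) : ℂ) ≠ 0 := by
            intro h6
            apply h3
            have h7 : φ s i = 0 := by exact_mod_cast h6
            rw [h7, Int.cast_zero]
          push_cast
          rw [h4]
          field_simp
        rw [h2, finrank_bot]
        exact Nat.zero_le _
    omega
  · rw [← finrank_kSpan K Rm, add_comm]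
    refine orth_le K _ _ ?_
    intro c hc u hu
    unfold kSpan at hu
    refine Submodule.span_induction (hx := hu) ?_ ?_ ?_ ?_
    · rintro _ ⟨m, hm, rfl⟩
      exact hc.2 m hm
    · simp
    · intro x y _ _ hx hy
      simp only [Pi.add_apply, add_mul, Finset.sum_add_distrib, hx, hy, add_zero]
    · intro a x _ hx
      simp only [Pi.smul_apply, smul_eq_mul, mul_assoc, ← Finset.mul_sum, hx, mul_zero]

end Pool.Agent.W261.TD
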