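import Pool.Agent.W243.TD.Stm

/-! The induction step, `C = 1`. -/

set_option autoImplicit false

namespace Pool.Agent.W261.TD

open Finset Module
open Pool.Agent.W243.TD
open Pool.Agent.H335R2.Obs (kSpan finrank_kSpan)

/-- arithmetic of the induction step -/
theorem arith (d l r r' d1 ν g0 gG rV : ℕ) (hr : r < d) (hr' : r' < r)
    (h1 : g0 + r' ≤ gG + rV) (h2 : r' + d1 ≤ d) (h3 : rV + ν ≤ r' + d1)
    (h4 : (d1 + (l - g0)) * (d - r) ≤ ν * d) (h5 : ν ≤ d1) (h6 : g0 ≤ l) :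
    l + 1 * (r' * (r' + 1)) ≤ gG + 1 * (r * (r + 1)) := by
  obtain ⟨c, rfl⟩ : ∃ c, d = r + (c + 1) := ⟨d - r - 1, by omega⟩
  obtain ⟨δ, rfl⟩ : ∃ δ, r = r' + (δ + 1) := ⟨r - r' - 1, by omega⟩
  obtain ⟨e, rfl⟩ : ∃ e, l = g0 + e := ⟨l - g0, by omega⟩
  obtain ⟨y0, rfl⟩ : ∃ y0, d1 = ν + y0 := ⟨d1 - ν, by omega⟩
  have e1 : g0 + e - g0 = e := by omega
  have e2 : r' + (δ + 1) + (c + 1) - (r' + (δ + 1)) = c + 1 := by omega
  rw [e1, e2] at h4
  -- `y = y0 + e`
  by_contra hcon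
  push Not at hcon
  have k1 : g0 + e ≤ gG + (y0 + e) := by omega
  have k2 : ν ≤ c + 1 + (δ + 1) := by omega
  have k3 : (y0 + e) * (c + 1) ≤ ν * (r' + (δ + 1)) := by nlinarith
  have k4 : ν * (r' + (δ + 1)) ≤ (c + 1 + (δ + 1)) * (r' + (δ + 1)) :=
    Nat.mul_le_mul_right _ k2
  have k5 : (δ + 1) * (2 * r' + (δ + 1) + 1) < y0 + e := by nlinarith
  have k6 : ((δ + 1) * (2 * r' + (δ + 1) + 1) + 1) * (c + 1) ≤
      (c + 1 + (δ + 1)) * (r' + (δ + 1)) := by
    refine le_trans ?_ (k3.trans k4)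
    exact Nat.mul_le_mul_right _ k5
  nlinarith [Nat.zero_le (δ * r'), Nat.zero_le (δ * δ), Nat.zero_le (δ * r' * c),
    Nat.zero_le (δ * δ * c), Nat.zero_le (δ * c), Nat.zero_le (r' * c), Nat.zero_le c]

theorem step1 (h1 : S_ineq1) (h2 : S_g0) (h3 : S_lan) : S_step1 := by
  intro θ hθ K hK d l r V z hr hr0 hrd hV hz hexp
  classical
  have hexp' : ∀ p i, Al θ (Complex.exp (z p i)) := by
    intro p i
    have := hexp p i
    rwa [one_mul] at this
  obtain ⟨N, Rm, G0, hN, hN1, hG0, hineq⟩ := h1 θ hθ K hK d l r V z hr hrd hz hexp'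
  let V1 : Submodule K (Fin d → K) :=
    { carrier := {v | v ∈ V ∧ ∀ α ∈ N, ∑ j, α j * (v j : ℂ) = 0}
      zero_mem' := ⟨V.zero_mem, fun m _ => by simp⟩
      add_mem' := by
        rintro a b ⟨ha, ha'⟩ ⟨hb, hb'⟩
        refine ⟨V.add_mem ha hb, fun m hm => ?_⟩
        simp only [Pi.add_apply]
        push_cast
        simp only [mul_add, Finset.sum_add_distrib, ha' m hm, hb' m hm, add_zero]
      smul_mem' := by
        rintro c a ⟨ha, ha'⟩
        refine ⟨V.smul_mem c ha, fun m hm => ?_⟩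
        have : ∀ j, m j * (((c • a) j : K) : ℂ) = (c : ℂ) * (m j * (a j : ℂ)) := fun j => by
          simp only [Pi.smul_apply, smul_eq_mul]
          push_cast
          ring
        simp only [this, ← Finset.mul_sum, ha' m hm, mul_zero] }
  have hV1 : V1 ≤ V := fun v hv => hv.1
  have hP : (2 * Real.pi * Complex.I : ℂ) ≠ 0 := by
    simp [Real.pi_ne_zero]
  obtain ⟨V2, G, hV2, hGle, hGz, hdim1, hdim2⟩ := h2 K (2 * Real.pi * Complex.I) hP d l V1 Rm G0 z
    (by
      intro s hs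
      obtain ⟨a1, a2⟩ := hG0 s hs
      refine ⟨⟨V.sum_mem fun p _ => V.smul_mem _ (hz p), fun α hα => ?_⟩, a2⟩
      rw [← a1 α hα]
      refine Finset.sum_congr rfl fun j _ => ?_
      simp [Finset.sum_apply])
  have hlan := h3 K d V1 V2 Rm N hV2 hN (fun v hv α hα => hv.2 α hα)
  have hV2V : V2 ≤ V := fun v hv => hV1 ((hV2 v).1 hv).1
  have hlt : finrank K V2 < r := by
    have hle : finrank K V2 ≤ r := by
      rw [← hr]
      exact Submodule.finrank_mono hV2V
    refine lt_of_le_of_ne hle fun heq => ?_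
    have hVV : V2 = V := Submodule.eq_of_le_of_finrank_eq hV2V (heq.trans hr.symm)
    have hRm : Rm = ⊥ := by
      rw [eq_bot_iff]
      intro m hm
      have hm0 : (fun i => (m i : ℚ)) = 0 := by
        refine hV _ fun v hv => ?_
        have hv2 : v ∈ V2 := by rw [hVV]; exact hv
        have := ((hV2 v).1 hv2).2 m hm
        rw [← this]
        refine Finset.sum_congr rfl fun j _ => ?_
        congr 1
      rw [AddSubgroup.mem_bot]
      funext i
      have := congrFun hm0 i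
      simp only [Pi.zero_apply] at this
      exact_mod_cast this
    have h5 := Submodule.finrank_mono hN
    rw [finrank_kSpan, hRm] at h5
    have h6 : finrank ℤ (⊥ : AddSubgroup (Fin d → ℤ)) = 0 := by
      have : finrank ℤ (⊥ : AddSubgroup (Fin d → ℤ)) =
        finrank ℤ (⊥ : Submodule ℤ (Fin d → ℤ)) := rfl
      rw [this, finrank_bot]
    omega
  refine ⟨V2, G, hV2V, hlt, hGz, ?_⟩
  have hG0l : finrank ℤ G0 ≤ l := by
    have h5 : finrank ℤ G0 = finrank ℤ (AddSubgroup.toIntSubmodule G0) := rfl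
    rw [h5]
    refine (Submodule.finrank_le _).trans ?_
    rw [finrank_fintype_fun_eq_card, Fintype.card_fin]
  have hNle : finrank ℂ N ≤ finrank ℤ Rm := by
    have := Submodule.finrank_mono hN
    rwa [finrank_kSpan] at this
  exact arith d l r _ _ _ _ _ _ hrd hlt hdim1 hdim2 hlan hineq hNle hG0l

end Pool.Agent.W261.TD
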